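import Pool.Agent.helper9.HQ.Spec

/-!
# Project hq (MP_d9e35a_co), row DSC: descent to a link
-/

set_option autoImplicit false
set_option linter.unusedVariables false

open scoped Classical

namespace Pool.Agent.helper9.HQ

open Finset
open Pool.Agent.helper65.HC (V IsEig IsTop lam)

noncomputable section

theorem DSC_dn {d : ℕ} {U : Fam d} (hU : Dn U) (i : Fin d) : Dn (lk i U) := by
  intro x hx y hy
  obtain ⟨h1, h2, h3⟩ := Finset.mem_filter.1 hx
  exact Finset.mem_filter.2 ⟨hU x h1 y hy, fun h => h2 (hy h),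
    hU _ h3 _ (Finset.insert_subset_insert i hy)⟩

theorem DSC_card {d : ℕ} (U : Fam d) (i : Fin d) : 2 * (lk i U).card ≤ U.card := by
  have h1 : ((lk i U).image (insert i)).card = (lk i U).card := by
    apply Finset.card_image_of_injOn
    intro x hx y hy hxy
    have hx' := (Finset.mem_filter.1 (Finset.mem_coe.1 hx)).2.1
    have hy' := (Finset.mem_filter.1 (Finset.mem_coe.1 hy)).2.1
    have h2 : (insert i x).erase i = (insert i y).erase i := congrArg (fun z => z.erase i) hxy
    rwa [Finset.erase_insert hx', Finset.erase_insert hy'] at h2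
  have h2 : Disjoint (lk i U) ((lk i U).image (insert i)) := by
    rw [Finset.disjoint_left]
    intro x hx hx'
    obtain ⟨y, -, rfl⟩ := Finset.mem_image.1 hx'
    exact (Finset.mem_filter.1 hx).2.1 (Finset.mem_insert_self i y)
  have h3 : (lk i U) ∪ ((lk i U).image (insert i)) ⊆ U := by
    intro x hx
    rcases Finset.mem_union.1 hx with h | h
    · exact (Finset.mem_filter.1 h).1
    · obtain ⟨y, hy, rfl⟩ := Finset.mem_image.1 h
      exact (Finset.mem_filter.1 hy).2.2
  have h4 := Finset.card_le_card h3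
  rw [Finset.card_union_of_disjoint h2, h1] at h4
  omega

theorem DSC_empty {d : ℕ} {U : Fam d} (h : ¬ U.Nonempty) (L : ℝ) : Le U L := by
  rw [Finset.not_nonempty_iff_eq_empty] at h
  subst h
  intro f
  unfold E N
  simp

theorem DSC_N {d : ℕ} (U : Fam d) (f : Finset (Fin d) → ℝ) : 0 ≤ N U f :=
  Finset.sum_nonneg fun x _ => sq_nonneg _

theorem DSC_main (hEV : EV_stmt) (d : ℕ) (kap : ℝ) (hk0 : 0 < kap) (hk1 : kap ≤ 1 / 20) :
    ∀ (n : ℕ) (U : Fam d), U.card ≤ n → ∀ (j : ℕ) (l : ℝ) (f : Finset (Fin d) → ℝ), Dn U →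
      Eig U l f → 0 < l →
      ∃ (A : Fam d) (l' : ℝ) (f' : Finset (Fin d) → ℝ) (J : ℕ), j ≤ J ∧ Dn A ∧ Eig A l' f' ∧
        (1 - 10 * kap * ((9 / 10) ^ j - (9 / 10) ^ J)) * l ≤ l' ∧
        A.card * 2 ^ (J - j) ≤ U.card ∧
        ∀ i, Le (lk i A) ((1 - kap * (9 / 10) ^ J) * l') := by
  intro n
  induction n with
  | zero =>
    intro U hUn j l f hD hE hl
    exfalso
    have h1 : U = ∅ := Finset.card_eq_zero.1 (Nat.le_zero.1 hUn)
    have h2 := hE.nrm
    rw [h1] at h2
    unfold N at h2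
    rw [Finset.sum_empty] at h2
    exact zero_ne_one h2
  | succ n ih =>
    intro U hUn j l f hD hE hl
    by_cases hall : ∀ i, Le (lk i U) ((1 - kap * (9 / 10) ^ j) * l)
    · refine ⟨U, l, f, j, le_rfl, hD, hE, ?_, ?_, hall⟩
      · rw [sub_self, mul_zero, sub_zero, one_mul]
      · rw [Nat.sub_self, pow_zero, mul_one]
    · rw [not_forall] at hall
      obtain ⟨i, hi⟩ := hall
      have hne : (lk i U).Nonempty := by
        by_contra h
        exact hi (DSC_empty h _)
      have hcard := DSC_card U i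
      have hpos : 0 < (lk i U).card := Finset.card_pos.2 hne
      obtain ⟨l2, f2, hl20, hE2⟩ := hEV d (lk i U) (DSC_dn hD i) hne
      have hr0 : (0 : ℝ) < (9 / 10) ^ j := by positivity
      have hr1 : ((9 / 10 : ℝ)) ^ j ≤ 1 := pow_le_one₀ (by norm_num) (by norm_num)
      have ha0 : 0 ≤ kap * (9 / 10) ^ j := by positivity
      have ha1 : kap * (9 / 10) ^ j ≤ 1 / 20 := by nlinarith
      have hl2 : (1 - kap * (9 / 10) ^ j) * l < l2 := by
        by_contra h
        rw [not_lt] at h
        apply hi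
        intro g
        exact (hE2.le g).trans (mul_le_mul_of_nonneg_right h (DSC_N _ _))
      have hl2' : 0 < l2 := lt_of_le_of_lt (by
        apply mul_nonneg _ hl.le
        linarith) hl2
      obtain ⟨A, l', f', J, hJ, hDA, hEA, hll, hcA, hLe⟩ :=
        ih (lk i U) (by omega) (j + 1) l2 f2 (DSC_dn hD i) hE2 hl2'
      refine ⟨A, l', f', J, by omega, hDA, hEA, ?_, ?_, hLe⟩
      · have hrJ0 : (0 : ℝ) < (9 / 10) ^ J := by positivity
        have hrJ : ((9 / 10 : ℝ)) ^ J ≤ (9 / 10) ^ (j + 1) :=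
          pow_le_pow_of_le_one (by norm_num) (by norm_num) hJ
        have hrs : ((9 / 10 : ℝ)) ^ (j + 1) = (9 / 10) * (9 / 10) ^ j := pow_succ' _ _
        have hb0 : 0 ≤ 10 * kap * ((9 / 10) ^ (j + 1) - (9 / 10) ^ J) := by
          apply mul_nonneg (by linarith)
          linarith
        have hb1 : 10 * kap * ((9 / 10) ^ (j + 1) - (9 / 10) ^ J) ≤ 1 / 2 := by
          have h1 : ((9 / 10 : ℝ)) ^ (j + 1) - (9 / 10) ^ J ≤ 1 := by
            rw [hrs]
            linarith
          have h2 : 10 * kap * ((9 / 10) ^ (j + 1) - (9 / 10) ^ J) ≤ 10 * kap * 1 :=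
            mul_le_mul_of_nonneg_left h1 (by linarith)
          linarith
        have h3 : (1 - 10 * kap * ((9 / 10) ^ (j + 1) - (9 / 10) ^ J)) *
            ((1 - kap * (9 / 10) ^ j) * l) ≤
            (1 - 10 * kap * ((9 / 10) ^ (j + 1) - (9 / 10) ^ J)) * l2 :=
          mul_le_mul_of_nonneg_left hl2.le (by linarith)
        have h4 : (1 - 10 * kap * ((9 / 10) ^ j - (9 / 10) ^ J)) * l ≤
            (1 - 10 * kap * ((9 / 10) ^ (j + 1) - (9 / 10) ^ J)) *
            ((1 - kap * (9 / 10) ^ j) * l) := by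
          rw [← mul_assoc]
          apply mul_le_mul_of_nonneg_right _ hl.le
          have h5 : 0 ≤ (10 * kap * ((9 / 10) ^ (j + 1) - (9 / 10) ^ J)) *
              (kap * (9 / 10) ^ j) := mul_nonneg hb0 ha0
          rw [hrs] at h5 ⊢
          nlinarith
        exact h4.trans (h3.trans hll)
      · have h1 : J - j = (J - (j + 1)) + 1 := by omega
        rw [h1, pow_succ, ← mul_assoc]
        omega

theorem DSC (hEV : EV_stmt) : DSC_stmt := by
  intro d U l f kap hD hE hl hk0 hk1
  obtain ⟨A, l', f', J, -, hDA, hEA, hll, hcA, hLe⟩ :=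
    DSC_main hEV d kap hk0 hk1 U.card U le_rfl 0 l f hD hE hl
  refine ⟨A, l', f', J, hDA, hEA, ?_, ?_, hLe⟩
  · refine le_trans ?_ hll
    apply mul_le_mul_of_nonneg_right _ hl.le
    have h1 : (0 : ℝ) < (9 / 10) ^ J := by positivity
    rw [pow_zero]
    nlinarith
  · rwa [Nat.sub_zero] at hcA

end

end Pool.Agent.helper9.HQ
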